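import Mathlib

open MeasureTheory ProbabilityTheory Filter Topology
open scoped ENNReal

namespace Pool.Agent.H95

variable {E : Type*} [MeasurableSpace E]

/-- shift of a sequence -/
def shift {E : Type*} (t : ℕ) (x : ℕ → E) : ℕ → E := fun n => x (n + t)

/-- concatenation: first `t` entries from `q.1`, the rest from `q.2` -/
def splice {E : Type*} (t : ℕ) (q : (ℕ → E) × (ℕ → E)) : ℕ → E :=
  fun n => if n < t then q.1 n else q.2 (n - t)

/-- `f` only depends on the coordinates with index `< t` -/
def DepLt {E β : Type*} (t : ℕ) (f : (ℕ → E) → β) : Prop :=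
  ∀ x x' : ℕ → E, (∀ i < t, x i = x' i) → f x = f x'

lemma shift_apply {E : Type*} (t : ℕ) (x : ℕ → E) (n : ℕ) : shift t x n = x (n + t) := rfl

lemma shift_shift {E : Type*} (s t : ℕ) (x : ℕ → E) : shift s (shift t x) = shift (s + t) x := by
  funext n; simp [shift, add_assoc]

lemma shift_zero {E : Type*} (x : ℕ → E) : shift 0 x = x := by
  funext n; simp [shift]

lemma shift_splice {E : Type*} (t : ℕ) (q : (ℕ → E) × (ℕ → E)) : shift t (splice t q) = q.2 := by
  funext n; simp [shift, splice]

lemma DepLt.splice_eq {E β : Type*} {t : ℕ} {f : (ℕ → E) → β} (hf : DepLt t f)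
    (q : (ℕ → E) × (ℕ → E)) : f (splice t q) = f q.1 := by
  apply hf
  intro i hi
  simp [splice, hi]

lemma DepLt.mono {E β : Type*} {s t : ℕ} {f : (ℕ → E) → β} (hf : DepLt s f) (h : s ≤ t) :
    DepLt t f := fun x x' hx => hf x x' (fun i hi => hx i (lt_of_lt_of_le hi h))

lemma measurable_shift (t : ℕ) : Measurable (shift t : (ℕ → E) → (ℕ → E)) := by
  unfold shift; fun_prop

lemma measurable_splice (t : ℕ) : Measurable (splice t : (ℕ → E) × (ℕ → E) → (ℕ → E)) := by
  unfold splice
  refine measurable_pi_lambda _ (fun n => ?_)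
  by_cases h : n < t
  · simp only [h, if_true]; fun_prop
  · simp only [h, if_false]; fun_prop

variable (ν : Measure E) [IsProbabilityMeasure ν]

/-- product measure on sequences -/
noncomputable abbrev iid (ν : Measure E) : Measure (ℕ → E) := Measure.infinitePi (fun _ : ℕ => ν)

lemma measurePreserving_shift (t : ℕ) : MeasurePreserving (shift t) (iid ν) (iid ν) := by
  refine ⟨measurable_shift t, ?_⟩
  have := Measure.map_infinitePi_infinitePi_of_inj (P := fun _ : ℕ => ν) (f := fun n : ℕ => n + t)
    (fun a b h => by simpa using h)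
  exact this

lemma measurePreserving_splice (t : ℕ) :
    MeasurePreserving (splice t) ((iid ν).prod (iid ν)) (iid ν) := by
  refine ⟨measurable_splice t, ?_⟩
  apply Measure.eq_infinitePi
  intro s u hu
  rw [Measure.map_apply (measurable_splice t) (MeasurableSet.pi s.countable_toSet (fun i _ => hu i))]
  classical
  have h1 : splice t ⁻¹' (Set.pi s u) =
      (Set.pi ((s.filter (· < t) : Finset ℕ) : Set ℕ) u) ×ˢ
      (Set.pi (((s.filter (fun i => ¬ i < t)).image (fun i => i - t) : Finset ℕ) : Set ℕ)
        (fun i => u (i + t))) := by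
    ext q
    simp only [Set.mem_preimage, Set.mem_pi, Set.mem_prod, Finset.coe_filter, Set.mem_ofPred_eq,
      Finset.coe_image, Set.mem_image, splice, Finset.mem_coe]
    constructor
    · intro h
      refine ⟨fun i hi => ?_, ?_⟩
      · have := h i hi.1
        simpa [hi.2] using this
      · rintro _ ⟨i, ⟨hi, hit⟩, rfl⟩
        have := h i hi
        rw [if_neg hit] at this
        have e : i - t + t = i := by omega
        rw [e]
        exact this
    · intro h i hi
      by_cases hit : i < t
      · simp only [hit, if_true]; exact h.1 i ⟨hi, hit⟩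
      · simp only [hit, if_false]
        have := h.2 (i - t) ⟨i, ⟨hi, hit⟩, rfl⟩
        have e : i - t + t = i := by omega
        rwa [e] at this
  rw [h1, Measure.prod_prod, Measure.infinitePi_pi _ (fun i _ => hu i),
    Measure.infinitePi_pi _ (fun i _ => hu _)]
  rw [Finset.prod_image]
  · have : ∀ i ∈ s.filter (fun i => ¬ i < t), ν (u (i - t + t)) = ν (u i) := by
      intro i hi
      have : ¬ i < t := (Finset.mem_filter.mp hi).2
      have e : i - t + t = i := by omega
      rw [e]
    rw [Finset.prod_congr rfl this]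
    exact Finset.prod_filter_mul_prod_filter_not s (· < t) (fun i => ν (u i))
  · intro a ha b hb hab
    have ha' : ¬ a < t := (Finset.mem_filter.mp ha).2
    have hb' : ¬ b < t := (Finset.mem_filter.mp hb).2
    simp only at hab
    omega

/-- independence of past and future, integral form -/
lemma integral_mul_shift {t : ℕ} {f g : (ℕ → E) → ℝ} (hf : DepLt t f)
    (hfm : AEStronglyMeasurable f (iid ν)) (hgm : AEStronglyMeasurable g (iid ν)) :
    ∫ x, f x * g (shift t x) ∂(iid ν) = (∫ x, f x ∂(iid ν)) * ∫ x, g x ∂(iid ν) := by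
  have hg' : AEStronglyMeasurable (fun x => g (shift t x)) (iid ν) :=
    hgm.comp_measurePreserving (measurePreserving_shift ν t)
  have hmp := measurePreserving_splice ν t
  have : ∫ x, f x * g (shift t x) ∂(iid ν)
      = ∫ q, (fun x => f x * g (shift t x)) (splice t q) ∂((iid ν).prod (iid ν)) := by
    rw [← integral_map (f := fun x => f x * g (shift t x)) hmp.measurable.aemeasurable]
    · rw [hmp.map_eq]
    · rw [hmp.map_eq]
      exact hfm.mul hg'
  rw [this]
  have h2 : ∀ q : (ℕ → E) × (ℕ → E), (fun x => f x * g (shift t x)) (splice t q) = f q.1 * g q.2 := by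
    intro q
    simp only [hf.splice_eq, shift_splice]
  simp_rw [h2]
  exact integral_prod_mul f g

lemma measure_inter_shift {t : ℕ} {A B : Set (ℕ → E)} (hA : DepLt t (fun x => x ∈ A))
    (hAm : MeasurableSet A) (hBm : MeasurableSet B) :
    (iid ν) (A ∩ shift t ⁻¹' B) = (iid ν) A * (iid ν) B := by
  have hmp := measurePreserving_splice ν t
  have h1 : (iid ν) (A ∩ shift t ⁻¹' B) = ((iid ν).prod (iid ν)) (splice t ⁻¹' (A ∩ shift t ⁻¹' B)) :=
    (hmp.measure_preimage (hAm.inter (measurable_shift t hBm)).nullMeasurableSet).symm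
  rw [h1]
  have h2 : splice t ⁻¹' (A ∩ shift t ⁻¹' B) = A ×ˢ B := by
    ext q
    have := hA.splice_eq q
    simp only [eq_iff_iff] at this
    simp only [Set.mem_preimage, Set.mem_inter_iff, shift_splice, Set.mem_prod, this]
  rw [h2, Measure.prod_prod]

lemma measure_shift_preimage (t : ℕ) {B : Set (ℕ → E)} (hBm : MeasurableSet B) :
    (iid ν) (shift t ⁻¹' B) = (iid ν) B :=
  (measurePreserving_shift ν t).measure_preimage hBm.nullMeasurableSet

end Pool.Agent.H95
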